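import Pool.Agent.W622.ETG.Lin

set_option autoImplicit false
set_option maxHeartbeats 4000000

/-! MP_d26ff6_al: the part AG3 (case `p ≥ 3`, all blocks good). -/

namespace Pool.Agent.W509.ELG

open Pool.Agent.W622.ETG Module

section
variable {V : Type} [AddCommGroup V] [Module (ZMod 2) V] [Finite V]

/-- two members of an independent set are disjoint -/
theorem disj_of_indep {s : Set (DSub V)} (h : sSupIndep s) {X Y : DSub V} (hX : X ∈ s) (hY : Y ∈ s)
    (hne : X ≠ Y) : Disjoint X Y :=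
  h.pairwiseDisjoint hX hY hne

/-- an element common to a member and to the sum of others is zero -/
theorem zero_of_indep {s t : Set (DSub V)} (h : sSupIndep s) {X : DSub V} (hX : X ∈ s)
    (ht : t ⊆ s \ {X}) {f : Dl V} (hf : f ∈ X) (hf' : f ∈ sSup t) : f = 0 := by
  have h1 : Disjoint X (sSup (s \ {X})) := h hX
  have h2 : f ∈ X ⊓ sSup (s \ {X}) := ⟨hf, sSup_le_sSup ht hf'⟩
  rwa [h1.eq_bot, Submodule.mem_bot] at h2

theorem mem_of_sp {ω : Frm V} {X : DSub V} (h : sp ω = X) (b : V) : ω b ∈ X := by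
  rw [← h]; exact ⟨b, rfl⟩

theorem t_AG3 (hOM : S_OM) (hHH : S_HH) : S_AG3 := by
  intro V _ _ _ e A d p hCB hgood hd hp hn hdim hcard hbasis
  classical
  have hA : EFam e A := hCB.mc.ef
  have hloc : ∀ X, Block e A X → LocBlock e A X := by
    intro X hX
    rcases hX with h | h
    · exact absurd h.1 (hCB.nc X)
    · exact h
  have hom : ∀ X, Block e A X → om e A X ∈ A ∧ sp (om e A X) = X := by
    intro X hX
    obtain ⟨h1, _, h3, _⟩ := hOM V e A X hA (hloc X hX)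
    exact ⟨h1, h3⟩
  -- p + 1 different blocks
  obtain ⟨S, hSsub, hScard⟩ := Set.exists_subset_card_eq hcard
  have hSfin : S.Finite := Set.toFinite S
  set T₀ : Finset (DSub V) := hSfin.toFinset with hT₀
  have hT₀c : T₀.card = p + 1 := by
    rw [hT₀, ← Set.ncard_eq_toFinset_card S hSfin, hScard]
  have hT₀b : ∀ X ∈ T₀, Block e A X := by
    intro X hX
    rw [hT₀, Set.Finite.mem_toFinset] at hX
    exact hSsub hX
  -- three different members
  obtain ⟨X₁, X₂, X₃, h1, h2, h3, h12, h13, h23⟩ :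
      ∃ a b c, a ∈ T₀ ∧ b ∈ T₀ ∧ c ∈ T₀ ∧ a ≠ b ∧ a ≠ c ∧ b ≠ c := by
    have := Finset.two_lt_card_iff.mp (show 2 < T₀.card by omega)
    obtain ⟨a, b, c, ha, hb, hc, hab, hac, hbc⟩ := this
    exact ⟨a, b, c, ha, hb, hc, hab, hac, hbc⟩
  have hd12 : Disjoint X₁ X₂ := by
    have hb := hbasis (T₀.erase X₃) (fun X hX => hT₀b X (Finset.mem_of_mem_erase hX))
      (by rw [Finset.card_erase_of_mem h3, hT₀c]; rfl)
    exact disj_of_indep hb.1 (by simp [h1, h13]) (by simp [h2, h23]) h12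
  have hnz : ∀ X, Block e A X → ∃ x ∈ X, x ≠ 0 := by
    intro X hX
    have : X ≠ ⊥ := by
      rintro rfl
      have := hdim ⊥ hX
      rw [finrank_bot] at this
      omega
    exact (Submodule.ne_bot_iff X).mp this
  obtain ⟨x₁, hx₁, hx₁0⟩ := hnz X₁ (hT₀b _ h1)
  obtain ⟨x₂, hx₂, hx₂0⟩ := hnz X₂ (hT₀b _ h2)
  -- h ≠ 0
  have hh0 : x₁ + x₂ ≠ 0 := by
    intro h0
    have : x₁ = x₂ := add_eq_zero'.mp h0
    have h5 : x₁ ∈ X₁ ⊓ X₂ := ⟨hx₁, this ▸ hx₂⟩
    rw [hd12.eq_bot, Submodule.mem_bot] at h5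
    exact hx₁0 h5
  -- T
  set T : Finset (DSub V) := T₀.erase X₂ with hT
  have hTb : ∀ X ∈ T, Block e A X := fun X hX => hT₀b X (Finset.mem_of_mem_erase hX)
  have hTbas := hbasis T hTb (by rw [hT, Finset.card_erase_of_mem h2, hT₀c]; rfl)
  have hTbas' := hbasis (T₀.erase X₁) (fun X hX => hT₀b X (Finset.mem_of_mem_erase hX))
      (by rw [Finset.card_erase_of_mem h1, hT₀c]; rfl)
  have hX₁T : X₁ ∈ T := by rw [hT, Finset.mem_erase]; exact ⟨h12, h1⟩
  set ζ : Frm V := ∑ X ∈ T, om e A X with hζ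
  have hζA : ζ ∈ A := Submodule.sum_mem _ fun X hX => (hom X (hTb X hX)).1
  -- decomposition of h
  have hmem : x₁ + x₂ ∈ (⨆ X ∈ T, X) := by
    have : (⨆ X ∈ T, X) = (⊤ : DSub V) := by
      rw [← hTbas.2, sSup_eq_iSup]; rfl
    rw [this]; exact Submodule.mem_top
  obtain ⟨μ, hμ⟩ := (Submodule.mem_iSup_finset_iff_exists_sum (s := T) (p := fun X => X) (x₁ + x₂)).mp hmem
  have hα : ∀ X : DSub V, ∃ v : V, X ∈ T → om e A X v = (μ X : Dl V) := by
    intro X
    by_cases hX : X ∈ T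
    · have h6 : (μ X : Dl V) ∈ sp (om e A X) := by
        rw [(hom X (hTb X hX)).2]; exact (μ X).2
      obtain ⟨v, hv⟩ := h6
      exact ⟨v, fun _ => hv⟩
    · exact ⟨0, fun h => absurd h hX⟩
  choose α hα using hα
  obtain ⟨a, ha⟩ := glue (T : Set (DSub V)) α hTbas.1
  have homa : ∀ X ∈ T, om e A X a = (μ X : Dl V) := by
    intro X hX
    rw [← hα X hX]
    have hm := hom X (hTb X hX)
    refine LinearMap.ext fun b => ?_
    rw [(hA _ hm.1).symm a b, (hA _ hm.1).symm (α X) b]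
    exact ha X hX _ (mem_of_sp hm.2 b)
  have hζa : ζ a = x₁ + x₂ := by
    rw [hζ, LinearMap.sum_apply, ← hμ]
    exact Finset.sum_congr rfl homa
  have hne : om e A X₁ a ≠ x₁ := by
    intro hc
    have h7 : x₂ = ∑ X ∈ T.erase X₁, om e A X a := by
      have h8 : ∑ X ∈ T, om e A X a = x₁ + x₂ := by
        rw [← LinearMap.sum_apply]; exact hζa
      rw [← Finset.add_sum_erase T _ hX₁T, hc] at h8
      exact (add_left_cancel h8).symm
    have h9 : x₂ ∈ sSup ((T.erase X₁ : Finset (DSub V)) : Set (DSub V)) := by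
      rw [h7]
      refine Submodule.sum_mem _ fun X hX => ?_
      have hm := hom X (hTb X (Finset.mem_of_mem_erase hX))
      have : X ≤ sSup ((T.erase X₁ : Finset (DSub V)) : Set (DSub V)) := le_sSup hX
      exact this (mem_of_sp hm.2 a)
    apply hx₂0
    refine zero_of_indep hTbas'.1 (X := X₂) (by simp [h2, h12.symm]) ?_ hx₂ h9
    intro X hX
    simp only [hT, Finset.coe_erase, Set.mem_sdiff, Set.mem_singleton_iff, Finset.mem_coe] at hX ⊢
    exact ⟨⟨hX.1.1, hX.2⟩, hX.1.2⟩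
  have ha0 : a ≠ 0 := by
    rintro rfl
    rw [map_zero] at hζa
    exact hh0 hζa.symm
  have hG : ∀ X ∈ T₀, X ∈ GB e A := fun X hX => ⟨hT₀b X hX, hgood X (hT₀b X hX)⟩
  have hHHa := hHH V e A X₁ X₂ x₁ x₂ ζ a hCB (hG _ h1) (hG _ h2) h12 hx₁ hx₂ hx₁0 hζA hζa hne
  rw [hdim X₁ (hT₀b _ h1), hdim X₂ (hT₀b _ h2), hn] at hHHa
  have hBL : (BL e A a).ncard < p := by
    by_contra hc
    push Not at hc
    obtain ⟨S', hS'sub, hS'card⟩ := Set.exists_subset_card_eq hc
    have hS'fin : S'.Finite := Set.toFinite S'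
    have hb := hbasis hS'fin.toFinset (fun X hX => by
      rw [Set.Finite.mem_toFinset] at hX
      exact (hS'sub hX).1) (by rw [← Set.ncard_eq_toFinset_card S' hS'fin, hS'card])
    have : (⊤ : DSub V) ≤ ann a := by
      rw [← hb.2]
      refine sSup_le fun X hX => ?_
      rw [Set.Finite.coe_toFinset] at hX
      exact (hS'sub hX).2
    exact ann_ne_top ha0 (top_le_iff.mp this)
  by_cases hE : ∃ X, X ∈ BL e A a
  · obtain ⟨X, hX⟩ := hE
    have h10 := hHHa.2 ⟨X, hX, hgood X hX.1⟩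
    obtain ⟨d', rfl⟩ : ∃ d', d = d' + 2 := ⟨d - 2, by omega⟩
    obtain ⟨p', rfl⟩ : ∃ p', p = p' + 3 := ⟨p - 3, by omega⟩
    nlinarith [Nat.zero_le (d' * p')]
  · have h10 : BL e A a = ∅ := by
      rw [Set.eq_empty_iff_forall_notMem]
      exact fun X hX => hE ⟨X, hX⟩
    have h11 := hHHa.1
    rw [h10, Set.ncard_empty] at h11
    nlinarith

end

end Pool.Agent.W509.ELG
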