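import Pool.Agent.W622.ETG.Stm

set_option autoImplicit false

/-! MP_d26ff6_al: the part BEV (bad blocks are local of dimension at least two). -/

namespace Pool.Agent.W509.ELG

open Pool.Agent.W622.ETG Module

theorem t_BEV (hA4 : S_A4) (hOM : S_OM) : S_BEV := by
  intro V _ _ _ e A hMC F hF
  rcases hF.1 with h | h
  · exact absurd (hA4 V e A F hMC h) hF.2
  · refine ⟨h, ?_⟩
    obtain ⟨_, _, _, _, h1, h2⟩ := hOM V e A F hMC.ef h
    rcases Nat.lt_or_ge (finrank (ZMod 2) F) 2 with h3 | h3
    · exact absurd (h2 (by omega)).1 hF.2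
    · exact h3

end Pool.Agent.W509.ELG
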