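import Pool.Agent.W622.ETG.Lin

set_option autoImplicit false

/-! MP_d26ff6_al: the part TWO (no linked family with exactly three nonzero members of rank `≥ n-1`). -/

namespace Pool.Agent.W509.ELG

open Pool.Agent.W622.ETG Module

theorem ker_elem {V : Type} [AddCommGroup V] [Module (ZMod 2) V] [Finite V] (ω : Frm V)
    (h : finrank (ZMod 2) V ≤ finrank (ZMod 2) (sp ω) + 1) :
    ∃ b : V, ∀ x, ω x = 0 → x = 0 ∨ x = b := by
  have h1 := LinearMap.finrank_range_add_finrank_ker ω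
  have h2 : finrank (ZMod 2) (LinearMap.ker ω) ≤ 1 := by
    change finrank (ZMod 2) V ≤ finrank (ZMod 2) (LinearMap.range ω) + 1 at h
    omega
  obtain ⟨v, hv⟩ := finrank_le_one_iff.1 h2
  refine ⟨v, fun x hx => ?_⟩
  obtain ⟨c, hc⟩ := hv ⟨x, hx⟩
  have hc' : c • (v : V) = x := congrArg Subtype.val hc
  rcases z01 c with h3 | h3
  · left; rw [← hc', h3, zero_smul]
  · right; rw [← hc', h3, one_smul]

theorem t_TWO : S_TWO := by
  intro V _ _ _ e A hA hL h4 h2 hr
  classical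
  let _ := @Submodule.addCommGroup (ZMod 2) (Frm V) _ _ _ A
  have hb : finrank (ZMod 2) A = 2 := h2
  let b := Module.finBasisOfFinrankEq (ZMod 2) A hb
  obtain ⟨ω, hω⟩ : ∃ ω : Frm V, ω = (b 0 : Frm V) := ⟨_, rfl⟩
  obtain ⟨η, hη⟩ : ∃ η : Frm V, η = (b 1 : Frm V) := ⟨_, rfl⟩
  have hωA : ω ∈ A := by rw [hω]; exact (b 0).2
  have hηA : η ∈ A := by rw [hη]; exact (b 1).2
  have hall : ∀ ζ ∈ A, ζ = 0 ∨ ζ = ω ∨ ζ = η ∨ ζ = ω + η := by
    intro ζ hζ
    have h5 := b.sum_repr ⟨ζ, hζ⟩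
    rw [Fin.sum_univ_two] at h5
    have h6 : b.repr ⟨ζ, hζ⟩ 0 • (b 0 : Frm V) + b.repr ⟨ζ, hζ⟩ 1 • (b 1 : Frm V) = ζ :=
      congrArg Subtype.val h5
    rw [← hω, ← hη] at h6
    rcases z01 (b.repr ⟨ζ, hζ⟩ 0) with h7 | h7 <;> rcases z01 (b.repr ⟨ζ, hζ⟩ 1) with h8 | h8
    · left; rw [← h6, h7, h8, zero_smul, zero_smul, add_zero]
    · right; right; left; rw [← h6, h7, h8, zero_smul, one_smul, zero_add]
    · right; left; rw [← h6, h7, h8, zero_smul, one_smul, add_zero]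
    · right; right; right; rw [← h6, h7, h8, one_smul, one_smul]
  have hω0 : ω ≠ 0 := by
    intro h
    exact b.ne_zero 0 (Subtype.ext (by rw [← hω, h]; rfl))
  have hη0 : η ≠ 0 := by
    intro h
    exact b.ne_zero 1 (Subtype.ext (by rw [← hη, h]; rfl))
  have hs0 : ω + η ≠ 0 := by
    intro h
    have h5 : ω = η := add_eq_zero'.mp h
    rw [hω, hη] at h5
    exact absurd (b.injective (Subtype.ext h5)) (by decide)
  obtain ⟨b2, hb2⟩ := ker_elem η (hr η hηA hη0)
  obtain ⟨b3, hb3⟩ := ker_elem (ω + η) (hr _ (A.add_mem hωA hηA) hs0)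
  have hval : ∀ f ∈ sp ω ⊓ sp η, f = 0 ∨ f = ω b2 ∨ f = ω b3 := by
    rintro f ⟨⟨x, rfl⟩, ⟨y, hy⟩⟩
    obtain ⟨ζ, hζ, h5, h6⟩ := hL ω hωA η hηA x y hy.symm
    rcases hall ζ hζ with rfl | rfl | rfl | rfl
    · left; rw [← h5]; rfl
    · -- `ζ y = ω x = η y`
      have h7 : (ζ + η) y = 0 := by
        rw [LinearMap.add_apply, h6, hy, vadd]
      rcases hb3 y h7 with rfl | rfl
      · left; rw [← hy, map_zero]
      · right; right; exact h6.symm
    · have h7 : (ω + ζ) x = 0 := by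
        rw [LinearMap.add_apply, h5, vadd]
      rcases hb3 x h7 with rfl | rfl
      · left; rw [map_zero]
      · right; right; rfl
    · have h7 : η x = 0 := by
        rw [LinearMap.add_apply] at h5
        exact left_eq_add.mp h5.symm
      rcases hb2 x h7 with rfl | rfl
      · left; rw [map_zero]
      · right; left; rfl
  have h5 := Submodule.finrank_sup_add_finrank_inf_eq (sp ω) (sp η)
  have h6 : finrank (ZMod 2) (sp ω ⊔ sp η : DSub V) ≤ finrank (ZMod 2) V := by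
    rw [← finrank_Dl (V := V)]
    exact Submodule.finrank_le _
  have h7 := hr ω hωA hω0
  have h8 := hr η hηA hη0
  have h9 : 2 ≤ finrank (ZMod 2) (sp ω ⊓ sp η : DSub V) := by omega
  have h10 : Nat.card (sp ω ⊓ sp η : DSub V) = 2 ^ finrank (ZMod 2) (sp ω ⊓ sp η : DSub V) := by
    rw [Module.natCard_eq_pow_finrank (K := ZMod 2), Nat.card_zmod]
  have h11 : 4 ≤ Nat.card (sp ω ⊓ sp η : DSub V) := by
    rw [h10]
    calc 4 = 2 ^ 2 := rfl
      _ ≤ _ := Nat.pow_le_pow_right (by norm_num) h9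
  have h12 : ((sp ω ⊓ sp η : DSub V) : Set (Dl V)) ⊆ (({0, ω b2, ω b3} : Finset (Dl V)) : Set (Dl V)) := by
    intro f hf
    have := hval f hf
    simp only [Finset.coe_insert, Finset.coe_singleton, Set.mem_insert_iff, Set.mem_singleton_iff]
    exact this
  have h13 : Nat.card (sp ω ⊓ sp η : DSub V) ≤ ({0, ω b2, ω b3} : Finset (Dl V)).card := by
    have h14 := Set.ncard_le_ncard h12 (Set.toFinite _)
    rwa [Set.ncard_coe_finset] at h14
  have h14 : ({0, ω b2, ω b3} : Finset (Dl V)).card ≤ 3 := Finset.card_le_three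
  omega

end Pool.Agent.W509.ELG
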